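import Pool.Agent.H67.ExtHom2

namespace Pool.Agent.Results.MP_a0e599_al.Vanish

open Pool.Agent.H67.ExtHom

/-- the square-free monomial of a set of indices -/
noncomputable def monomial (K : Type) {V : Type} [Field K] [AddCommGroup V] [Module K V] {n : ℕ}
    (x : Fin n → V) (s : Finset (Fin n)) : ExteriorAlgebra K V :=
  ((s.sort (· ≤ ·)).map fun i => ExteriorAlgebra.ι K (x i)).prod

/-- the degree `d` form with the given coefficients -/
noncomputable def form {K V : Type} [Field K] [AddCommGroup V] [Module K V] {n d : ℕ}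
    (x : Fin n → V) (c : {s : Finset (Fin n) // s.card = d} → K) : ExteriorAlgebra K V :=
  ∑ s, c s • monomial K x s.1

/-- membership in an exterior power -/
def InDeg {K V : Type} [Field K] [AddCommGroup V] [Module K V] (r : ℕ)
    (z : ExteriorAlgebra K V) : Prop := z ∈ ⋀[K]^r V

/-- exactness of multiplication by `f` in degree `r` -/
def ExactAt {K V : Type} [Field K] [AddCommGroup V] [Module K V] (f : ExteriorAlgebra K V)
    (d r : ℕ) : Prop :=
  ∀ z, InDeg r z → f * z = 0 → (d ≤ r → ∃ y, InDeg (r - d) y ∧ z = f * y) ∧ (r < d → z = 0)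

theorem result (d r : ℕ) (hd : Odd d) : ∃ N : ℕ, ∀ n : ℕ, N ≤ n →
    ∀ (K V : Type) [Field K] [CharZero K] [AddCommGroup V] [Module K V]
      (x : Module.Basis (Fin n) K V) (c : {s : Finset (Fin n) // s.card = d} → K),
      AlgebraicIndependent ℚ c → ExactAt (form x c) d r := by
  refine ⟨(r + 1) * d, fun n hn K V _ _ _ _ x c hc z hz hfz => ?_⟩
  unfold InDeg at hz
  rw [← WK_eq x] at hz
  obtain ⟨y, hy, hzy⟩ := (extCAR x).main d r hd
    (fun s : {s : Finset (Fin n) // s.card = d} => s.1.sort (· ≤ ·))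
    (fun s => by rw [Finset.length_sort, s.2]) (block d r hn)
    (fun t => Finset.sort_nodup _ _)
    (fun t t' h i hi hi' => block_disj d r hn t t' h i ((Finset.mem_sort _).1 hi)
      ((Finset.mem_sort _).1 hi')) c hc z hz hfz
  refine ⟨fun h => ⟨y, ?_, hzy⟩, fun h => ?_⟩
  · unfold InDeg
    rw [← WK_eq x, Nat.cast_sub h]
    exact hy
  · rw [WK_neg x _ (by omega), Submodule.mem_bot] at hy
    rw [hzy, hy, mul_zero]

end Pool.Agent.Results.MP_a0e599_al.Vanish
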